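import Pool.Agent.H21.BT.Targets

/-!
# A Bessel inequality over many levels for tuples of exponentials: row TRV
-/

set_option autoImplicit false

open Finset Pool.Agent.H6.N4D Pool.Agent.H21.BS

namespace Pool.Agent.H5.BT

open Pool.Agent.H21.BT

theorem trv_DD (q n : ℕ) (hq : 1 ≤ q) :
    ‖DD q n‖ ^ 2 ≤ q * (if q ∣ n then (q : ℝ) else 0) + 1 := by
  unfold DD
  have hq' : (1 : ℝ) ≤ q := by exact_mod_cast hq
  by_cases h : q ∣ n
  · rw [if_pos h, if_pos h]
    have h1 : ((q : ℂ) - 1) = (((q : ℝ) - 1 : ℝ) : ℂ) := by push_cast; rfl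
    rw [h1, Complex.norm_real, Real.norm_eq_abs, sq_abs]
    nlinarith
  · rw [if_neg h, if_neg h]
    simp

theorem trv_F {W A : ℝ} {P : ℕ} {V : TC} (h : V.Ok W A P) (q : ℕ) (hq : q ∈ V.Q) (n : ℕ) :
    ‖V.F q n‖ ≤ V.k * A := by
  unfold TC.F
  refine (norm_sum_le _ _).trans ?_
  calc ∑ r ∈ range V.k, ‖V.b r q * ee (V.α r q * n)‖ ≤ ∑ _r ∈ range V.k, A := by
        refine sum_le_sum fun r hr => ?_
        rw [norm_mul, norm_ee, mul_one]
        exact h.bA r (mem_range.1 hr) q hq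
    _ = V.k * A := by rw [sum_const, card_range, nsmul_eq_mul]

theorem pf_TRV (hPR2 : T_PR2) : T_TRV := by
  intro W A P V h
  refine ⟨fun q hq n => trv_F h q hq n, fun q hq => ?_, fun q hq p hp hqp => ?_⟩
  · have hq1 : 1 ≤ q := (h.pr q hq).one_le
    have hq' : (1 : ℝ) ≤ q := by exact_mod_cast hq1
    have h1 := h.n1 q hq
    have h2 := h.nq q hq
    have h3 : ∑ x ∈ range V.N, ‖V.u q (V.a + x)‖ ^ 2 ≤
        q * ∑ x ∈ range V.N, (if q ∣ V.a + x then (q : ℝ) else 0) * ‖V.F q (V.a + x)‖ ^ 2 +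
          ∑ x ∈ range V.N, ‖V.F q (V.a + x)‖ ^ 2 := by
      rw [mul_sum, ← sum_add_distrib]
      refine sum_le_sum fun x _ => ?_
      unfold TC.u
      rw [norm_mul, mul_pow]
      have h4 := mul_le_mul_of_nonneg_right (trv_DD q (V.a + x) hq1)
        (sq_nonneg ‖V.F q (V.a + x)‖)
      linarith
    have hN : (0 : ℝ) ≤ V.N := Nat.cast_nonneg _
    have h5 : (q : ℝ) * ∑ x ∈ range V.N,
        (if q ∣ V.a + x then (q : ℝ) else 0) * ‖V.F q (V.a + x)‖ ^ 2 ≤ q * (2 * V.N) :=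
      mul_le_mul_of_nonneg_left h2 (by linarith)
    nlinarith
  · have h1 := (hPR2 V.N V.a 1 (fun _ => 0) q p (h.pr q hq) (h.pr p hp) (h.up q hq) (h.up p hp)
      one_pos le_rfl (by
        have : (1 : ℝ) ≤ V.N := by exact_mod_cast h.N1
        linarith)).2.1 hqp
    have hkA : 0 ≤ (V.k : ℝ) * A := mul_nonneg (Nat.cast_nonneg _) (by linarith [h.A1])
    calc ∑ x ∈ range V.N, ‖V.u q (V.a + x)‖ * ‖V.u p (V.a + x)‖
        ≤ ∑ x ∈ range V.N, (V.k * A) ^ 2 * (‖DD q (V.a + x)‖ * ‖DD p (V.a + x)‖) := by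
          refine sum_le_sum fun x _ => ?_
          unfold TC.u
          rw [norm_mul, norm_mul]
          have h2 := trv_F h q hq (V.a + x)
          have h3 := trv_F h p hp (V.a + x)
          have h4 : ‖V.F q (V.a + x)‖ * ‖V.F p (V.a + x)‖ ≤ (V.k * A) * (V.k * A) :=
            mul_le_mul h2 h3 (norm_nonneg _) hkA
          have h5 := mul_le_mul_of_nonneg_right h4
            (mul_nonneg (norm_nonneg (DD q (V.a + x))) (norm_nonneg (DD p (V.a + x))))
          nlinarith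
      _ = (V.k * A) ^ 2 * ∑ x ∈ range V.N, ‖DD q (V.a + x)‖ * ‖DD p (V.a + x)‖ := by
          rw [mul_sum]
      _ ≤ (V.k * A) ^ 2 * (8 * V.N) := mul_le_mul_of_nonneg_left h1 (sq_nonneg _)
      _ = 8 * (V.k * A) ^ 2 * V.N := by ring

end Pool.Agent.H5.BT
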